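import Mathlib

namespace Pool.Agent.Results.MP_59a3d4_lc.NoSplit

open Finsupp Submodule

/-- The space of countably infinite dimension, with coordinates indexed by `ℕ × Fin 4`. -/
abbrev R (F : Type) [Field F] : Type := (ℕ × Fin 4) →₀ F

/-- The coordinate vector. -/
noncomputable def e (F : Type) [Field F] (n : ℕ) (i : Fin 4) : R F := single (n, i) 1

/-- The vectors supported on the coordinates `(n,1)` and `(n,3)`. -/
noncomputable def V1 (F : Type) [Field F] : Submodule F (R F) :=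
  supported F F {p | p.2 = 1 ∨ p.2 = 3}

/-- The vectors supported on the coordinates `(n,0)` and `(n,2)`. -/
noncomputable def V2 (F : Type) [Field F] : Submodule F (R F) :=
  supported F F {p | p.2 = 0 ∨ p.2 = 2}

/-- The basis `B`. -/
noncomputable def β (F : Type) [Field F] (p : ℕ × Fin 4) : R F :=
  (if p.2 = 0 then e F p.1 0 else 0) + (if p.2 = 1 then e F p.1 1 else 0) +
    (e F p.1 2 - e F (p.1 + 1) 1) + ((p.2 : ℕ) + 1 : F) • (e F p.1 3 - e F (p.1 + 1) 0)

variable {F : Type} [Field F]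

noncomputable def ga (F : Type) [Field F] (n : ℕ) : R F :=
  e F n 0 - (3 : F) • e F n 2 + (2 : F) • e F n 3

noncomputable def gb (F : Type) [Field F] (n : ℕ) : R F :=
  e F n 1 - (2 : F) • e F n 2 + e F n 3

noncomputable def γ (F : Type) [Field F] (p : ℕ × Fin 4) : R F :=
  ![ga F p.1, gb F p.1, (4 : F) • e F p.1 2 - (3 : F) • e F p.1 3 + gb F (p.1 + 1),
    e F p.1 3 - e F p.1 2 + ga F (p.1 + 1)] p.2

lemma lc_e (v : ℕ × Fin 4 → R F) (n : ℕ) (i : Fin 4) :
    linearCombination F v (e F n i) = v (n, i) := by simp [e]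

lemma fg : linearCombination F (γ F) ∘ₗ linearCombination F (β F) = LinearMap.id := by
  refine Finsupp.lhom_ext' (fun ⟨n, i⟩ => LinearMap.ext_ring ?_)
  show linearCombination F (γ F) (linearCombination F (β F) (e F n i)) = e F n i
  rw [lc_e]
  fin_cases i <;> simp [β, lc_e, γ, ga, gb] <;> module

lemma gf : linearCombination F (β F) ∘ₗ linearCombination F (γ F) = LinearMap.id := by
  refine Finsupp.lhom_ext' (fun ⟨n, i⟩ => LinearMap.ext_ring ?_)
  show linearCombination F (β F) (linearCombination F (γ F) (e F n i)) = e F n i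
  rw [lc_e]
  fin_cases i <;> simp [β, lc_e, γ, ga, gb] <;> module

lemma step (P Q T : Fin 4 → F) (hQ : ∀ i, Q i ≠ 0) (hQT : ∀ i j, i ≠ j → Q i * T j - Q j * T i ≠ 0)
    (t : Finset (Fin 4)) (x : F) : ∃ y x' : F, ((t.card ≤ 2 ∨ x = 0) →
      ∀ i ∈ t, P i * x + Q i * y - T i * x' = 0) ∧ ((t.card ≤ 1 ∨ x = 0) → x' = 0) := by
  by_cases hx : x = 0
  · exact ⟨0, 0, by simp [hx], by simp⟩
  by_cases h1 : t.card ≤ 1
  · obtain ⟨i, hi⟩ := Finset.card_le_one_iff_subset_singleton.1 h1
    refine ⟨-(P i * x) / Q i, 0, fun _ j hj => ?_, by simp⟩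
    rw [Finset.mem_singleton.1 (hi hj)]
    have := hQ i
    field_simp
    ring
  by_cases h2 : t.card = 2
  · obtain ⟨i, j, hij, rfl⟩ := Finset.card_eq_two.1 h2
    have := mul_inv_cancel₀ (hQT i j hij)
    refine ⟨(P j * T i - P i * T j) * x * (Q i * T j - Q j * T i)⁻¹,
      (P j * Q i - P i * Q j) * x * (Q i * T j - Q j * T i)⁻¹, fun _ k hk => ?_, by tauto⟩
    rcases Finset.mem_insert.1 hk with rfl | hk
    · linear_combination (-(P k * x)) * this
    · rw [Finset.mem_singleton.1 hk]; linear_combination (-(P j * x)) * this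
  · exact ⟨0, 0, fun h => absurd (h.resolve_right hx) (by omega), by simp⟩

lemma chain (P Q T : Fin 4 → F) (hQ : ∀ i, Q i ≠ 0) (hQT : ∀ i j, i ≠ j → Q i * T j - Q j * T i ≠ 0)
    (t : ℕ → Finset (Fin 4)) (h : ∀ j, (t j).card ≤ 2 ∨ ∃ k < j, (t k).card ≤ 1) :
    ∃ x y : ℕ → F, x 0 = 1 ∧ ∀ j, ∀ i ∈ t j, P i * x j + Q i * y j - T i * x (j + 1) = 0 := by
  choose Y X h1 h2 using step P Q T hQ hQT
  let x : ℕ → F := fun j => Nat.rec 1 (fun j r => X (t j) r) j
  have z : ∀ j, (∃ k < j, (t k).card ≤ 1) → x j = 0 := by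
    intro j
    induction j with
    | zero => simp
    | succ j ih =>
      rintro ⟨k, k1, k2⟩
      apply h2
      rcases Nat.lt_succ_iff_lt_or_eq.1 k1 with k1 | rfl
      · exact Or.inr (ih ⟨k, k1, k2⟩)
      · exact Or.inl k2
  exact ⟨x, fun j => Y (t j) (x j), rfl, fun j => h1 (t j) (x j) ((h j).imp id (z j))⟩

lemma not_top {V : Submodule F (R F)} {s : Set (R F)} (φ : R F →ₗ[F] F) {v : R F} (hv : φ v ≠ 0)
    (h1 : V ≤ LinearMap.ker φ) (h2 : ∀ w ∈ s, φ w = 0) : V ⊔ span F s ≠ ⊤ := by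
  intro h
  have : V ⊔ span F s ≤ LinearMap.ker φ := sup_le h1 (span_le.2 h2)
  rw [h] at this
  exact hv (this trivial)

theorem result (F : Type) [Field F] (h2 : (2 : F) ≠ 0) (h3 : (3 : F) ≠ 0) :
    IsCompl (V1 F) (V2 F) ∧ LinearIndependent F (β F) ∧ span F (Set.range (β F)) = ⊤ ∧
    ∀ S : Set (ℕ × Fin 4), V1 F ⊔ span F (β F '' S) ≠ ⊤ ∨ V2 F ⊔ span F (β F '' Sᶜ) ≠ ⊤ := by
  classical
  refine ⟨⟨?_, ?_⟩, ?_, ?_, fun S => ?_⟩
  · apply disjoint_supported_supported
    rw [Set.disjoint_left]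
    rintro ⟨n, i⟩
    fin_cases i <;> simp
  · rw [codisjoint_iff, V1, V2, ← supported_union, ← supported_univ (M := F) (R := F)]
    congr 1
    ext ⟨n, i⟩
    fin_cases i <;> simp
  · exact Function.LeftInverse.injective (g := linearCombination F (γ F))
      (fun v => LinearMap.congr_fun fg v)
  · rw [← range_linearCombination, LinearMap.range_eq_top]
    exact Function.RightInverse.surjective (g := linearCombination F (γ F))
      (fun v => LinearMap.congr_fun gf v)
  have h4 : (4 : F) ≠ 0 := by rw [show (4 : F) = 2 * 2 by norm_num]; exact mul_ne_zero h2 h2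
  have hs : ∀ i : Fin 4, ((i : ℕ) + 1 : F) ≠ 0 := by
    intro i
    fin_cases i <;> norm_num [h2, h3, h4]
  have hd : ∀ i j : Fin 4, i ≠ j → ((j : ℕ) + 1 : F) - ((i : ℕ) + 1) ≠ 0 := by
    intro i j
    fin_cases i <;> fin_cases j <;> norm_num [h2, h3]
  let t : ℕ → Finset (Fin 4) := fun j => Finset.univ.filter (fun i => (j, i) ∈ S)
  by_cases h : ∀ j, (t j).card ≤ 2 ∨ ∃ k < j, (t k).card ≤ 1
  · left
    obtain ⟨x, y, x0, hx⟩ := chain (fun i => if i = 0 then 1 else 0) (fun _ => 1)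
      (fun i => ((i : ℕ) + 1 : F)) (fun _ => one_ne_zero) (by simpa using hd) t h
    refine not_top (linearCombination F (fun p => ![x p.1, 0, y p.1, 0] p.2)) (v := e F 0 0)
      (by simp [e, x0]) ?_ ?_
    · rw [V1, supported_eq_span_single, span_le]
      rintro _ ⟨⟨n, i⟩, hi | hi, rfl⟩ <;> simp only at hi <;> simp [hi]
    · rintro _ ⟨⟨n, i⟩, hi, rfl⟩
      have := hx n i (by simpa [t] using hi)
      fin_cases i <;> simp [β, e] at this ⊢ <;> linear_combination this
  · right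
    push Not at h
    obtain ⟨j, j1, j2⟩ := h
    have hc : ∀ k, (t k)ᶜ.card = 4 - (t k).card := fun k => by simp [Finset.card_compl]
    obtain ⟨x, y, x0, hx⟩ := chain (fun i => if i = 1 then 1 else 0) (fun i => ((i : ℕ) + 1 : F))
      (fun _ => 1) hs (fun i j h => by simpa using hd j i h.symm) (fun k => (t k)ᶜ) (by
        intro k
        rcases lt_trichotomy k j with h | rfl | h
        · have := j2 k h
          rw [hc]; omega
        · rw [hc]; omega
        · exact Or.inr ⟨j, h, by rw [hc]; omega⟩)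
    refine not_top (linearCombination F (fun p => ![0, x p.1, 0, y p.1] p.2)) (v := e F 0 1)
      (by simp [e, x0]) ?_ ?_
    · rw [V2, supported_eq_span_single, span_le]
      rintro _ ⟨⟨n, i⟩, hi | hi, rfl⟩ <;> simp only at hi <;> simp [hi]
    · rintro _ ⟨⟨n, i⟩, hi, rfl⟩
      have := hx n i (by simpa [t] using hi)
      fin_cases i <;> simp [β, e] at this ⊢ <;> linear_combination this

end Pool.Agent.Results.MP_59a3d4_lc.NoSplit
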